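import Pool.Agent.Helper93.IA.StC

/-! # Project IA, part C, module PH2: phases one and two together. -/

set_option autoImplicit false

namespace Pool.Agent.Helper34.IAC

open Finset
open Pool.Agent.Helper93.IA
open Pool.Agent.Helper17.IA (StPKU StPKB)

section

variable {α β : Type} [DecidableEq α] [DecidableEq β]

theorem oo_sub (X : Finset (α × β)) (U1 : Finset α) (U2 : Finset β) : oo X U1 U2 ⊆ X :=
  fun _ he => (mem_oo.1 he).1

theorem oi_sub (X : Finset (α × β)) (U1 : Finset α) (U2 : Finset β) : oi X U1 U2 ⊆ X :=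
  fun _ he => (mem_oi.1 he).1

theorem io_sub (X : Finset (α × β)) (U1 : Finset α) (U2 : Finset β) : io X U1 U2 ⊆ X :=
  fun _ he => (mem_io.1 he).1

theorem dj_oo_io (X Y : Finset (α × β)) (U1 : Finset α) (U2 : Finset β) :
    Disjoint (oo X U1 U2) (io Y U1 U2) :=
  Finset.disjoint_left.2 fun _ he he' => (mem_oo.1 he).2.1 (mem_io.1 he').2.1

theorem dj_oo_oi (X Y : Finset (α × β)) (U1 : Finset α) (U2 : Finset β) :
    Disjoint (oo X U1 U2) (oi Y U1 U2) :=
  Finset.disjoint_left.2 fun _ he he' => (mem_oo.1 he).2.2 (mem_oi.1 he').2.2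

theorem dj_io_oi (X Y : Finset (α × β)) (U1 : Finset α) (U2 : Finset β) :
    Disjoint (io X U1 U2) (oi Y U1 U2) :=
  Finset.disjoint_left.2 fun _ he he' => (mem_io.1 he).2.2 (mem_oi.1 he').2.2

/-- The reservoir is disjoint from the edges of the approximate decomposition. -/
theorem rsv_sub {A QA J : Finset (α × β)} {U1 : Finset α} {U2 : Finset β}
    (hQ : QA ⊆ crs A U1 U2) (hJ : J ⊆ (A \ ins A U1 U2) \ QA) : QA ⊆ A \ J := by
  intro e he
  rw [mem_sdiff]
  refine ⟨(mem_crs.1 (hQ he)).1, fun h => ?_⟩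
  exact (mem_sdiff.1 (hJ h)).2 he

theorem left_sub {A QA J : Finset (α × β)} {U1 : Finset α} {U2 : Finset β} :
    ((A \ ins A U1 U2) \ QA) \ J ⊆ A \ J := by
  intro e he
  simp only [mem_sdiff] at he ⊢
  exact ⟨he.1.1.1, he.2⟩

end

theorem hPH2 : StPH2 := by
  intro hLEC hOUT hROT hUN3 hPKU hPHL α β γ _ _ _ _ _ _ t A QA B QB C QC U1 U2 U3 P1 hQA hQB hQC
    cA cB cC hP1 sA sB sC
  have jA : P1.image eA ⊆ (A \ ins A U1 U2) \ QA := by
    intro e he
    obtain ⟨T, hT, rfl⟩ := mem_image.1 he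
    exact hP1.sA T hT
  have jB : P1.image eB ⊆ (B \ ins B U2 U3) \ QB := by
    intro e he
    obtain ⟨T, hT, rfl⟩ := mem_image.1 he
    exact hP1.sB T hT
  have jC : P1.image eC ⊆ (C \ ins C U3 U1) \ QC := by
    intro e he
    obtain ⟨T, hT, rfl⟩ := mem_image.1 he
    exact hP1.sC T hT
  -- the three packings covering the outer-outer leftover edges
  obtain ⟨PA, pA, iA, dA, -⟩ := hOUT hLEC α β γ t (2 * t)
    (oo (((A \ ins A U1 U2) \ QA) \ P1.image eA) U1 U2) B QB C QC U1 U2 U3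
    (fun e he => (mem_oo.1 he).2) hQB hQC (sA.mono (oo_sub _ _ _)) le_rfl cA
  obtain ⟨PB', pB', iB', dB', -⟩ := hOUT hLEC β γ α t (2 * t)
    (oo (((B \ ins B U2 U3) \ QB) \ P1.image eB) U2 U3) C QC A QA U2 U3 U1
    (fun e he => (mem_oo.1 he).2) hQC hQA (sB.mono (oo_sub _ _ _)) le_rfl cB
  obtain ⟨PC', pC', iC', dC', -⟩ := hOUT hLEC γ α β t (2 * t)
    (oo (((C \ ins C U3 U1) \ QC) \ P1.image eC) U3 U1) A QA B QB U3 U1 U2
    (fun e he => (mem_oo.1 he).2) hQA hQB (sC.mono (oo_sub _ _ _)) le_rfl cC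
  obtain ⟨PB, pB, iBA, iBB, iBC⟩ := hROT α β γ _ _ _ PB' pB'
  obtain ⟨PC'', pC'', iCA', iCB', iCC'⟩ := hROT β γ α _ _ _ PC' pC'
  obtain ⟨PC, pC, iCA, iCB, iCC⟩ := hROT α β γ _ _ _ PC'' pC''
  rw [iB'] at iBB
  rw [iCC'] at iCA
  rw [iCB', iC'] at iCC
  have dB : ∀ c, (d1 (PB.image eC) c : ℝ) ≤ t := by rw [iBC]; exact dB'
  have dC : ∀ a, (d1 (PC.image eA) a : ℝ) ≤ t := by rw [iCA]; exact dC'
  clear iCA iCB iCA' iCB' iCC' iBC iBA
  -- the union
  have rA := rsv_sub hQA jA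
  have rB := rsv_sub hQB jB
  have rC := rsv_sub hQC jC
  have hP2 : Pack (A \ P1.image eA) (B \ P1.image eB) (C \ P1.image eC) (PA ∪ PB ∪ PC) :=
    hUN3 α β γ _ _ _ _ _ _ _ _ _ _ _ _ PA PB PC pA pB pC
      ⟨(oo_sub _ _ _).trans left_sub, (io_sub _ _ _).trans rA, (oi_sub _ _ _).trans rA⟩
      ⟨(oi_sub _ _ _).trans rB, (oo_sub _ _ _).trans left_sub, (io_sub _ _ _).trans rB⟩
      ⟨(io_sub _ _ _).trans rC, (oi_sub _ _ _).trans rC, (oo_sub _ _ _).trans left_sub⟩
      ⟨dj_oo_io _ _ _ _, dj_oo_oi _ _ _ _, dj_io_oi _ _ _ _⟩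
      ⟨(dj_oo_oi _ _ _ _).symm, (dj_io_oi _ _ _ _).symm, dj_oo_io _ _ _ _⟩
      ⟨dj_io_oi _ _ _ _, (dj_oo_io _ _ _ _).symm, (dj_oo_oi _ _ _ _).symm⟩
  have hP : Pack A B C (P1 ∪ (PA ∪ PB ∪ PC)) := by
    refine (hPKU α β γ).1 A B C P1 (PA ∪ PB ∪ PC) ?_ hP2
    refine hP1.mono ?_ ?_ ?_
    · exact fun e he => (mem_sdiff.1 (mem_sdiff.1 he).1).1
    · exact fun e he => (mem_sdiff.1 (mem_sdiff.1 he).1).1
    · exact fun e he => (mem_sdiff.1 (mem_sdiff.1 he).1).1
  refine ⟨P1 ∪ (PA ∪ PB ∪ PC), hP, ?_, ?_, ?_⟩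
  · have h := hPHL α β t A QA (P1.image eA) (PB.image eA) (PC.image eA) U1 U2 hQA jA
      (by
        intro e he
        obtain ⟨T, hT, rfl⟩ := mem_image.1 he
        exact pB.sA T hT)
      (by
        intro e he
        obtain ⟨T, hT, rfl⟩ := mem_image.1 he
        exact pC.sA T hT) dC
    have e1 : (P1 ∪ (PA ∪ PB ∪ PC)).image eA = P1.image eA ∪
        (oo (((A \ ins A U1 U2) \ QA) \ P1.image eA) U1 U2 ∪ PB.image eA ∪ PC.image eA) := by
      rw [image_union, image_union, image_union, iA]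
    rw [e1]
    exact h
  · have h := hPHL β γ t B QB (P1.image eB) (PC.image eB) (PA.image eB) U2 U3 hQB jB
      (by
        intro e he
        obtain ⟨T, hT, rfl⟩ := mem_image.1 he
        exact pC.sB T hT)
      (by
        intro e he
        obtain ⟨T, hT, rfl⟩ := mem_image.1 he
        exact pA.sB T hT) dA
    have e1 : (P1 ∪ (PA ∪ PB ∪ PC)).image eB = P1.image eB ∪
        (oo (((B \ ins B U2 U3) \ QB) \ P1.image eB) U2 U3 ∪ PC.image eB ∪ PA.image eB) := by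
      rw [image_union, image_union, image_union, iBB]
      congr 1
      ext e
      simp only [mem_union]
      tauto
    rw [e1]
    exact h
  · have h := hPHL γ α t C QC (P1.image eC) (PA.image eC) (PB.image eC) U3 U1 hQC jC
      (by
        intro e he
        obtain ⟨T, hT, rfl⟩ := mem_image.1 he
        exact pA.sC T hT)
      (by
        intro e he
        obtain ⟨T, hT, rfl⟩ := mem_image.1 he
        exact pB.sC T hT) dB
    have e1 : (P1 ∪ (PA ∪ PB ∪ PC)).image eC = P1.image eC ∪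
        (oo (((C \ ins C U3 U1) \ QC) \ P1.image eC) U3 U1 ∪ PA.image eC ∪ PB.image eC) := by
      rw [image_union, image_union, image_union, iCC]
      congr 1
      ext e
      simp only [mem_union]
      tauto
    rw [e1]
    exact h

end Pool.Agent.Helper34.IAC
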